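import Pool.Agent.Helper69.LT.St

/-! Module Lin of project LT: linearity of `Lop`. -/

set_option autoImplicit false

open scoped BigOperators ENNReal
open Pool.LE Pool.NL

namespace Pool.LT

namespace LinM

variable {V : Type} [DecidableEq V] {R : Type} [CommRing R] [Algebra ℝ R]

theorem Ex_add (E : Finset (Sym2 V)) (p : ℝ) (f g : Finset (Sym2 V) → R) :
    Ex E p (fun ω => f ω + g ω) = Ex E p f + Ex E p g := by
  simp only [Ex, smul_add, Finset.sum_add_distrib]

theorem Ex_sub (E : Finset (Sym2 V)) (p : ℝ) (f g : Finset (Sym2 V) → R) :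
    Ex E p (fun ω => f ω - g ω) = Ex E p f - Ex E p g := by
  simp only [Ex, smul_sub, Finset.sum_sub_distrib]

theorem Ex_mul (E : Finset (Sym2 V)) (p : ℝ) (f : Finset (Sym2 V) → R) (P : R) :
    Ex E p (fun ω => f ω * P) = Ex E p f * P := by
  simp only [Ex, Finset.sum_mul, smul_mul_assoc]

theorem Ex_smul (E : Finset (Sym2 V)) (p c : ℝ) (f : Finset (Sym2 V) → R) :
    Ex E p (fun ω => c • f ω) = c • Ex E p f := by
  simp only [Ex, Finset.smul_sum]
  exact Finset.sum_congr rfl fun ω _ => smul_comm _ _ _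

theorem Ex_sum {ι : Type} (E : Finset (Sym2 V)) (p : ℝ) (s : Finset ι)
    (f : ι → Finset (Sym2 V) → R) :
    Ex E p (fun ω => ∑ i ∈ s, f i ω) = ∑ i ∈ s, Ex E p (f i) := by
  simp only [Ex, Finset.smul_sum]
  exact Finset.sum_comm

theorem Lop_congr {X Y : Type} (L : Finset V) (r : V → R) (E : Finset (Sym2 V)) (p : ℝ)
    (Φ : Set V → V → X → R) (Ψ : Set V → V → Y → R) (x : X) (y : Y)
    (h : ∀ A v, Φ A v x = Ψ A v y) (A : Set V) (v : V) :
    Lop E p L r Φ A v x = Lop E p L r Ψ A v y := by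
  simp only [Lop, h]

theorem Lop_mul (L : Finset V) (r : V → R) (E : Finset (Sym2 V)) (p : ℝ)
    (Ψ : Set V → V → V × V → R) (G : V → V → R) (A : Set V) (v x : V) :
    Lop E p L r (fun A v x => ∑ ub ∈ drt E, p • (Ψ A v ub * G ub.2 x)) A v x =
      ∑ ub ∈ drt E, p • (Lop E p L r Ψ A v ub * G ub.2 x) := by
  have h1 : ∀ cd : V × V, Ex E p (fun ω => vA L r (ω.erase s(cd.1, cd.2)) A v cd.1 *
      ∑ ub ∈ drt E, p • (Ψ (cl ω cd.1 cd.2 v) cd.2 ub * G ub.2 x)) =
      ∑ ub ∈ drt E, p • (Ex E p (fun ω => vA L r (ω.erase s(cd.1, cd.2)) A v cd.1 *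
        Ψ (cl ω cd.1 cd.2 v) cd.2 ub) * G ub.2 x) := by
    intro cd
    have h2 : ∀ ω : Finset (Sym2 V), vA L r (ω.erase s(cd.1, cd.2)) A v cd.1 *
        ∑ ub ∈ drt E, p • (Ψ (cl ω cd.1 cd.2 v) cd.2 ub * G ub.2 x) =
        ∑ ub ∈ drt E, p • ((vA L r (ω.erase s(cd.1, cd.2)) A v cd.1 *
          Ψ (cl ω cd.1 cd.2 v) cd.2 ub) * G ub.2 x) := by
      intro ω
      rw [Finset.mul_sum]
      refine Finset.sum_congr rfl fun ub _ => ?_
      rw [mul_smul_comm, mul_assoc]
    simp only [h2]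
    rw [Ex_sum]
    refine Finset.sum_congr rfl fun ub _ => ?_
    rw [Ex_smul, Ex_mul]
  simp only [Lop, h1, Finset.smul_sum, Finset.sum_mul]
  rw [Finset.sum_comm]
  refine Finset.sum_congr rfl fun ub _ => Finset.sum_congr rfl fun cd _ => ?_
  rw [smul_mul_assoc]

end LinM

theorem hLin : SLin := by
  intro V _ R _ _ L r E p X
  refine ⟨fun Φ Ψ A v x => ?_, fun Φ Ψ A v x => ?_, fun Φ A v x N => ?_, fun Ψ G A v x N => ?_⟩
  · simp only [Lop, mul_add, LinM.Ex_add, smul_add, Finset.sum_add_distrib]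
  · simp only [Lop, mul_sub, LinM.Ex_sub, smul_sub, Finset.sum_sub_distrib]
  · induction N generalizing A v with
    | zero => rfl
    | succ N ih =>
      rw [Function.iterate_succ_apply', Function.iterate_succ_apply']
      exact LinM.Lop_congr L r E p _ _ x () ih A v
  · induction N generalizing A v x with
    | zero => rfl
    | succ N ih =>
      rw [Function.iterate_succ_apply', Function.iterate_succ_apply', ← LinM.Lop_mul]
      exact LinM.Lop_congr L r E p _ _ x x (fun A v => ih A v x) A v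

end Pool.LT
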